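import Pool.Agent.TH500.PC.WCrit

/-!
A criterion for all alphabet sizes prime to 3.
-/

set_option autoImplicit false

namespace Pool.Agent.Results.MP_68c55c_lc.ActivePrimes

/-- Let `q ≥ 4` be prime to `3`. If a perfect 2-error-correcting code over an alphabet of `q`
letters has at least two words, then `q` has at least two prime divisors `p ≥ 5`, and at least
three if `q` is odd, such that `3` is congruent modulo `p` to a product of powers of `2` and of
the prime divisors of `q` different from `p`. -/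
theorem result (q n : ℕ) (hq : 4 ≤ q) (hq3 : ¬ 3 ∣ q) (C : Finset (Fin n → Fin q))
    (hC : ∀ x : Fin n → Fin q, ∃! c : Fin n → Fin q, c ∈ C ∧ hammingDist x c ≤ 2)
    (hcard : 2 ≤ C.card) :
    ∃ T : Finset ℕ, 2 + q % 2 ≤ T.card ∧ ∀ p ∈ T, p.Prime ∧ 5 ≤ p ∧ p ∣ q ∧
      (3 : ZMod p) ∈ Submonoid.closure
        {z : ZMod p | z = 2 ∨ ∃ r : ℕ, r.Prime ∧ r ∣ q ∧ r ≠ p ∧ z = (r : ZMod p)} := by
  classical
  have hS := Pool.Agent.TH500.PC.sol_of_code (C := C) hC (by rw [Fintype.card_fin]; omega) hcard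
  rw [Fintype.card_fin] at hS
  obtain ⟨x, y, hS⟩ := hS
  rcases Nat.mod_two_eq_zero_or_one q with hq2 | hq2
  · obtain ⟨p₁, p₂, h12, h1, h2⟩ := Pool.Agent.TH500.PC.two_active hS hq3 (by omega) hq2
    refine ⟨{p₁, p₂}, ?_, ?_⟩
    · rw [Finset.card_pair h12]; omega
    · intro p hp
      simp only [Finset.mem_insert, Finset.mem_singleton] at hp
      rcases hp with rfl | rfl
      · exact h1
      · exact h2
  · obtain ⟨p₁, p₂, p₃, h12, h13, h23, h1, h2, h3⟩ :=
      Pool.Agent.TH500.PC.three_active hS hq3 (by omega) hq2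
    refine ⟨{p₁, p₂, p₃}, ?_, ?_⟩
    · rw [Finset.card_eq_three.2 ⟨p₁, p₂, p₃, h12, h13, h23, rfl⟩]; omega
    · intro p hp
      simp only [Finset.mem_insert, Finset.mem_singleton] at hp
      rcases hp with rfl | rfl | rfl
      · exact h1
      · exact h2
      · exact h3

end Pool.Agent.Results.MP_68c55c_lc.ActivePrimes
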