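import Pool.Agent.TH500.PC.WSmooth

/-!
A necessary condition on the length of a perfect 2-error-correcting code over any alphabet.
-/

set_option autoImplicit false

namespace Pool.Agent.Results.MP_68c55c_lc.LengthCondition

/-- If a perfect 2-error-correcting code of length `n` over an alphabet of `q ≥ 2` letters has at
least two words, then `1 + 4 (q - 1) (n - 2) / q ^ 2` is the square of a natural number `w ≥ 1`
every odd prime divisor of which divides `q`. -/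
theorem result (q n : ℕ) (hq : 2 ≤ q) (C : Finset (Fin n → Fin q))
    (hC : ∀ x : Fin n → Fin q, ∃! c : Fin n → Fin q, c ∈ C ∧ hammingDist x c ≤ 2)
    (hcard : 2 ≤ C.card) :
    ∃ w : ℕ, 1 ≤ w ∧ 3 ≤ n ∧ q ^ 2 * w ^ 2 = q ^ 2 + 4 * (q - 1) * (n - 2) ∧
      ∀ l : ℕ, l.Prime → l ≠ 2 → l ∣ w → l ∣ q := by
  have hcq : Fintype.card (Fin q) = q := Fintype.card_fin q
  obtain ⟨m₁, m₂, hlt, hm2, hn, h1, h2, h3⟩ :=
    Pool.Agent.TH500.PC.lloyd (C := C) hC (by rw [hcq]; exact hq) hcard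
  have h2' : (Fintype.card (Fin q) : ℤ) ^ 2 * (m₁ * m₂) = ((n : ℤ) - 1) * (n - 2) := by
    have : (((Fintype.card (Fin q)) ^ 2 * (m₁ * m₂) : ℕ) : ℤ) = (((n - 1) * (n - 2) : ℕ) : ℤ) := by
      exact_mod_cast h2
    push_cast [Nat.cast_sub (show 1 ≤ n by omega), Nat.cast_sub (show 2 ≤ n by omega)] at this
    exact this
  obtain ⟨w, hw⟩ : ∃ w, m₂ = m₁ + w := ⟨m₂ - m₁, by omega⟩
  refine ⟨w, by omega, hn, ?_, ?_⟩
  · rw [hcq] at h1 h2'
    have e1 : (q : ℤ) * (m₁ + m₂) + 4 = 2 * n + q := by exact_mod_cast h1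
    have e3 : (m₂ : ℤ) = m₁ + w := by rw [hw]; push_cast; ring
    have e4 : (q : ℤ) ^ 2 * (w : ℤ) ^ 2 = (q : ℤ) ^ 2 + 4 * (q - 1) * (n - 2) := by
      have e5 : (w : ℤ) = m₂ - m₁ := by rw [e3]; ring
      rw [e5]
      linear_combination (q * ((m₁ : ℤ) + m₂) + 2 * n + q - 4) * e1 - 4 * h2'
    have e6 : ((q ^ 2 * w ^ 2 : ℕ) : ℤ) = ((q ^ 2 + 4 * (q - 1) * (n - 2) : ℕ) : ℤ) := by
      push_cast [Nat.cast_sub (show 1 ≤ q by omega), Nat.cast_sub (show 2 ≤ n by omega)]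
      exact e4
    exact_mod_cast e6
  · intro l hl hl2 hlw
    haveI : Fact l.Prime := ⟨hl⟩
    have h := Pool.Agent.TH500.PC.dvd_card_of_dvd_sub (C := C) hC (by rw [hcq]; exact hq) hcard hn
      m₁ m₂ h1 h2' l hl2 (by
        rw [hw]
        push_cast
        rw [(ZMod.natCast_eq_zero_iff w l).2 hlw, add_zero])
    rwa [hcq] at h

end Pool.Agent.Results.MP_68c55c_lc.LengthCondition
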