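import Pool.Agent.TH500.PC.WMany

/-!
Infinite sets of primes all of whose products are alphabet sizes without perfect
2-error-correcting codes.
-/

set_option autoImplicit false

namespace Pool.Agent.Results.MP_68c55c_lc.ManyPrimes

/-- For any two primes `p₁, p₂ ≥ 5` (possibly equal) there is an infinite set `S` of further primes
such that, for every `q ≥ 3` all of whose prime divisors lie in `S ∪ {p₁, p₂}` or all of whose
prime divisors lie in `S ∪ {2, p₁}`, every perfect 2-error-correcting code over an alphabet of `q`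
letters has at most one word. -/
theorem result (p₁ p₂ : ℕ) (hp₁ : p₁.Prime) (hp₂ : p₂.Prime) (h₁ : 5 ≤ p₁) (h₂ : 5 ≤ p₂) :
    ∃ S : Set ℕ, S.Infinite ∧ (∀ p ∈ S, p.Prime ∧ p ≠ p₁ ∧ p ≠ p₂) ∧
      ∀ q : ℕ, 3 ≤ q →
        ((∀ p : ℕ, p.Prime → p ∣ q → p = p₁ ∨ p = p₂ ∨ p ∈ S) ∨
          (∀ p : ℕ, p.Prime → p ∣ q → p = 2 ∨ p = p₁ ∨ p ∈ S)) →
        ∀ (n : ℕ) (C : Finset (Fin n → Fin q)),
          (∀ x : Fin n → Fin q, ∃! c : Fin n → Fin q, c ∈ C ∧ hammingDist x c ≤ 2) →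
            C.card ≤ 1 := by
  classical
  obtain ⟨S, hinf, hgood⟩ := Pool.Agent.TH500.PC.exists_infinite2 (F := {p₁, p₂}) (by
    intro r hr
    simp only [Finset.mem_insert, Finset.mem_singleton] at hr
    rcases hr with rfl | rfl
    · exact ⟨hp₁, h₁⟩
    · exact ⟨hp₂, h₂⟩)
  refine ⟨S, hinf, ?_, ?_⟩
  · intro p hp
    have h := hgood.1 p hp
    refine ⟨h.1, ?_, ?_⟩
    · rintro rfl; exact h.2.2 (by simp)
    · rintro rfl; exact h.2.2 (by simp)
  intro q hq hqS n C hC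
  by_contra hcon
  push Not at hcon
  have hS := Pool.Agent.TH500.PC.sol_of_code (C := C) hC (by rw [Fintype.card_fin]; omega) hcon
  rw [Fintype.card_fin] at hS
  exact Pool.Agent.TH500.PC.many2 hgood h₁ h₂ hq hqS hS

end Pool.Agent.Results.MP_68c55c_lc.ManyPrimes
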