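import Pool.Agent.TH500.PC.WDvd

/-!
No perfect 2-error-correcting codes over alphabets whose size has exactly two prime factors.
-/

set_option autoImplicit false

namespace Pool.Agent.Results.MP_68c55c_lc.TwoPrimeFactors

/-- Let `p ≠ r` be primes and `a, b ≥ 1`. Every perfect 2-error-correcting code, of any length `n`,
over an alphabet of `p ^ a * r ^ b` letters has at most one word. -/
theorem result (p r a b n : ℕ) (hp : p.Prime) (hr : r.Prime) (hpr : p ≠ r)
    (ha : 1 ≤ a) (hb : 1 ≤ b)
    (C : Finset (Fin n → Fin (p ^ a * r ^ b)))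
    (hC : ∀ x : Fin n → Fin (p ^ a * r ^ b), ∃! c : Fin n → Fin (p ^ a * r ^ b),
      c ∈ C ∧ hammingDist x c ≤ 2) :
    C.card ≤ 1 := by
  by_contra hcard
  push Not at hcard
  have hq : 2 ≤ Fintype.card (Fin (p ^ a * r ^ b)) := by
    rw [Fintype.card_fin]
    calc 2 ≤ p := hp.two_le
      _ ≤ p ^ a := Nat.le_self_pow (by omega) p
      _ ≤ p ^ a * r ^ b := Nat.le_mul_of_pos_right _ (pow_pos hr.pos b)
  have hS := Pool.Agent.TH500.PC.sol_of_code (C := C) hC hq hcard
  rw [Fintype.card_fin] at hS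
  exact Pool.Agent.TH500.PC.two_primes_none hp hr hpr ha hb hS

end Pool.Agent.Results.MP_68c55c_lc.TwoPrimeFactors
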